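import Mathlib
import Pool.Agent.Lib_helper74.CG.Game
import Pool.Agent.Lib_helper77.CGT.Check

set_option autoImplicit false
set_option linter.unusedSectionVars false
set_option linter.unusedSimpArgs false

/-!
# Soundness of the certificate checker
-/

namespace Pool.Agent.Lib_helper77.CGT

open Finset Pool.Agent.Lib_helper74.CG

/-! ### lists -/

theorem ins_perm (x : ℕ) (l : List ℕ) : (ins x l).Perm (x :: l) := by
  induction l with
  | nil => exact List.Perm.refl _
  | cons y t ih =>
    show (Bool.rec (motive := fun _ => List ℕ) (y :: ins x t) (x :: y :: t) (Nat.ble y x)).Perm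
      (x :: y :: t)
    cases Nat.ble y x with
    | false => exact (ih.cons y).trans (List.Perm.swap x y t)
    | true => exact List.Perm.refl _

theorem srt_perm (nb : ℕ) (l acc : List ℕ) :
    (srt nb l acc).Perm (l.map (fun y => Nat.land y nb) ++ acc) := by
  induction l with
  | nil => exact List.Perm.refl _
  | cons y t ih =>
    show (ins (Nat.land y nb) (srt nb t acc)).Perm _
    refine (ins_perm _ _).trans ?_
    simpa using ih

/-- the columns after a vertex has got the colour of column `x` -/
def child (nb na : ℕ) (l : List ℕ) (x : ℕ) : List ℕ :=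
  (Nat.land x na) :: (l.erase x).map (fun y => Nat.land y nb)

theorem child_congr {nb na : ℕ} {l l' : List ℕ} (h : l.Perm l') (x : ℕ) :
    (child nb na l x).Perm (child nb na l' x) := by
  unfold child
  exact ((h.erase x).map _).cons _

theorem srt_child {nb na : ℕ} {l0 pre t : List ℕ} {x : ℕ} (h : l0.Perm (pre ++ x :: t)) :
    (srt nb pre (srt nb t (List.cons (Nat.land x na) List.nil))).Perm (child nb na l0 x) := by
  refine (srt_perm _ _ _).trans ?_
  refine ((srt_perm nb t _).append_left _).trans ?_
  have h1 : (l0.erase x).Perm (pre ++ t) := by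
    refine (h.erase x).trans ?_
    have h2 : (pre ++ x :: t).Perm (x :: (pre ++ t)) := List.perm_middle
    refine (h2.erase x).trans ?_
    simp
  unfold child
  have h3 : ((l0.erase x).map (fun y => Nat.land y nb)).Perm
      (pre.map (fun y => Nat.land y nb) ++ t.map (fun y => Nat.land y nb)) := by
    refine (h1.map _).trans ?_
    simp
  refine List.Perm.trans ?_ (h3.symm.cons _)
  rw [← List.append_assoc]
  exact List.perm_append_singleton _ _

/-- list of the vertices -/
def VL.toList : VL → List (ℕ × ℕ × ℕ × ℕ × ℕ)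
  | .nil => []
  | .cons b nb na a tw t => (b, nb, na, a, tw) :: t.toList

theorem chC_spec {P : ℕ → List ℕ → Bool} {U b nb na : ℕ} {l0 : List ℕ} :
    ∀ (l pre : List ℕ) (last : ℕ), l0.Perm (pre ++ l) →
      (last = 0 ∨ ∃ l2 : List ℕ, l2.Perm (child nb na l0 last) ∧ P (Nat.land U nb) l2 = true) →
      chC P U b nb na l pre last = true → ∀ x ∈ l, Nat.land x b ≠ 0 →
      ∃ l2 : List ℕ, l2.Perm (child nb na l0 x) ∧ P (Nat.land U nb) l2 = true := by
  intro l
  induction l with
  | nil => intro pre last _ _ _ x hx; simp at hx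
  | cons y t ih =>
    intro pre last hp hlast hc x hx hxb
    have hp' : l0.Perm ((y :: pre) ++ t) := hp.trans List.perm_middle
    change Bool.rec (motive := fun _ => Bool)
      (Bool.rec (motive := fun _ => Bool)
        (Bool.rec (motive := fun _ => Bool) false (chC P U b nb na t (List.cons y pre) y)
          (P (Nat.land U nb) (srt nb pre (srt nb t (List.cons (Nat.land y na) List.nil)))))
        (chC P U b nb na t (List.cons y pre) y) (Nat.beq y last))
      (chC P U b nb na t (List.cons y pre) last) (Nat.beq (Nat.land y b) 0) = true at hc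
    rcases hyb : Nat.beq (Nat.land y b) 0 with _ | _
    · rw [hyb] at hc
      change Bool.rec (motive := fun _ => Bool)
        (Bool.rec (motive := fun _ => Bool) false (chC P U b nb na t (List.cons y pre) y)
          (P (Nat.land U nb) (srt nb pre (srt nb t (List.cons (Nat.land y na) List.nil)))))
        (chC P U b nb na t (List.cons y pre) y) (Nat.beq y last) = true at hc
      have hyb' : Nat.land y b ≠ 0 := by
        intro h0
        rw [h0] at hyb
        simp at hyb
      -- the column `y` is good
      have hy : (∃ l2 : List ℕ, l2.Perm (child nb na l0 y) ∧ P (Nat.land U nb) l2 = true) ∧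
          chC P U b nb na t (List.cons y pre) y = true := by
        rcases hyl : Nat.beq y last with _ | _
        · rw [hyl] at hc
          change Bool.rec (motive := fun _ => Bool) false (chC P U b nb na t (List.cons y pre) y)
            (P (Nat.land U nb) (srt nb pre (srt nb t (List.cons (Nat.land y na) List.nil))))
            = true at hc
          rcases hP : P (Nat.land U nb) (srt nb pre (srt nb t (List.cons (Nat.land y na) List.nil)))
            with _ | _
          · rw [hP] at hc
            exact absurd hc (by simp)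
          · rw [hP] at hc
            exact ⟨⟨_, srt_child hp, hP⟩, hc⟩
        · rw [hyl] at hc
          have hyl' : y = last := Nat.eq_of_beq_eq_true hyl
          refine ⟨?_, hc⟩
          rcases hlast with h0 | h0
          · exfalso
            apply hyb'
            rw [hyl', h0]
            exact Nat.zero_and b
          · rw [hyl']; exact h0
      rcases List.mem_cons.mp hx with rfl | hx'
      · exact hy.1
      · exact ih (y :: pre) y hp' (Or.inr hy.1) hy.2 x hx' hxb
    · rw [hyb] at hc
      change chC P U b nb na t (List.cons y pre) last = true at hc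
      have hyb' : Nat.land y b = 0 := Nat.eq_of_beq_eq_true hyb
      rcases List.mem_cons.mp hx with rfl | hx'
      · exact absurd hyb' hxb
      · exact ih (y :: pre) last hp' hlast hc x hx' hxb

theorem allCh_spec {P : ℕ → List ℕ → Bool} {U : ℕ} {l : List ℕ} (vs : VL)
    (h : allCh P vs U l = true) : ∀ e ∈ vs.toList, Nat.land U e.1 ≠ 0 →
      Nat.land U e.2.2.2.2 = 0 → ∀ x ∈ l, Nat.land x e.1 ≠ 0 →
      ∃ l2 : List ℕ, l2.Perm (child e.2.1 e.2.2.1 l x) ∧ P (Nat.land U e.2.1) l2 = true := by
  induction vs with
  | nil => intro e he; simp [VL.toList] at he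
  | cons b nb na a tw t ih =>
    intro e he hU hT x hx hxe
    change Bool.rec (motive := fun _ => Bool)
      (Bool.rec (motive := fun _ => Bool) (allCh P t U l)
        (Bool.rec (motive := fun _ => Bool) false (allCh P t U l)
          (chC P U b nb na l List.nil 0)) (Nat.beq (Nat.land U tw) 0))
      (allCh P t U l) (Nat.beq (Nat.land U b) 0) = true at h
    rcases hb : Nat.beq (Nat.land U b) 0 with _ | _
    · rw [hb] at h
      change Bool.rec (motive := fun _ => Bool) (allCh P t U l)
        (Bool.rec (motive := fun _ => Bool) false (allCh P t U l)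
          (chC P U b nb na l List.nil 0)) (Nat.beq (Nat.land U tw) 0) = true at h
      rcases htw : Nat.beq (Nat.land U tw) 0 with _ | _
      · rw [htw] at h
        simp only [VL.toList, List.mem_cons] at he
        rcases he with rfl | he
        · rw [show Nat.land U tw = 0 from hT] at htw
          exact absurd htw (by simp)
        · exact ih h e he hU hT x hx hxe
      · rw [htw] at h
        change Bool.rec (motive := fun _ => Bool) false (allCh P t U l)
          (chC P U b nb na l List.nil 0) = true at h
        rcases hc : chC P U b nb na l List.nil 0 with _ | _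
        · rw [hc] at h
          exact absurd h (by simp)
        · rw [hc] at h
          simp only [VL.toList, List.mem_cons] at he
          rcases he with rfl | he
          · exact chC_spec l [] 0 (by simp) (Or.inl rfl) hc x hx hxe
          · exact ih h e he hU hT x hx hxe
    · rw [hb] at h
      simp only [VL.toList, List.mem_cons] at he
      rcases he with rfl | he
      · exact absurd (Nat.eq_of_beq_eq_true hb) hU
      · exact ih h e he hU hT x hx hxe

theorem exC_spec {P : ℕ → List ℕ → Bool} {U b nb na : ℕ} {l0 : List ℕ} :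
    ∀ (l pre : List ℕ) (j : ℕ), l0.Perm (pre ++ l) →
      exC P U b nb na l pre j = true → ∃ x ∈ l, Nat.land x b ≠ 0 ∧
      ∃ l2 : List ℕ, l2.Perm (child nb na l0 x) ∧ P (Nat.land U nb) l2 = true := by
  intro l
  induction l with
  | nil => intro pre j _ h; exact absurd h (by simp [exC])
  | cons y t ih =>
    intro pre j hp h
    have hp' : l0.Perm ((y :: pre) ++ t) := hp.trans List.perm_middle
    change Bool.rec (motive := fun _ => Bool)
      (exC P U b nb na t (List.cons y pre) (Nat.sub j 1))
      (Bool.rec (motive := fun _ => Bool)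
        (P (Nat.land U nb) (srt nb pre (srt nb t (List.cons (Nat.land y na) List.nil))))
        false (Nat.beq (Nat.land y b) 0))
      (Nat.beq j 0) = true at h
    rcases hj : Nat.beq j 0 with _ | _
    · rw [hj] at h
      obtain ⟨x, hx, hxb, l2, h2⟩ := ih (y :: pre) _ hp' h
      exact ⟨x, List.mem_cons_of_mem _ hx, hxb, l2, h2⟩
    · rw [hj] at h
      change Bool.rec (motive := fun _ => Bool)
        (P (Nat.land U nb) (srt nb pre (srt nb t (List.cons (Nat.land y na) List.nil))))
        false (Nat.beq (Nat.land y b) 0) = true at h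
      rcases hb : Nat.beq (Nat.land y b) 0 with _ | _
      · rw [hb] at h
        refine ⟨y, List.mem_cons_self, ?_, _, srt_child hp, h⟩
        intro h0
        rw [h0] at hb
        simp at hb
      · rw [hb] at h
        exact absurd h (by simp)

theorem exCh_spec {P : ℕ → List ℕ → Bool} {U : ℕ} {l : List ℕ} {bv j : ℕ} (vs : VL)
    (h : exCh P vs U l bv j = true) : ∃ e ∈ vs.toList, ∃ x ∈ l, Nat.land x e.1 ≠ 0 ∧
      ∃ l2 : List ℕ, l2.Perm (child e.2.1 e.2.2.1 l x) ∧ P (Nat.land U e.2.1) l2 = true := by
  induction vs with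
  | nil => exact absurd h (by simp [exCh])
  | cons b nb na a tw t ih =>
    change Bool.rec (motive := fun _ => Bool) (exCh P t U l bv j)
      (exC P U b nb na l List.nil j) (Nat.beq b bv) = true at h
    rcases hb : Nat.beq b bv with _ | _
    · rw [hb] at h
      obtain ⟨e, he, h2⟩ := ih h
      exact ⟨e, by simp [VL.toList, he], h2⟩
    · rw [hb] at h
      obtain ⟨x, hx, hxb, h2⟩ := exC_spec (l0 := l) l [] j (List.Perm.refl _) h
      exact ⟨(b, nb, na, a, tw), by simp [VL.toList], x, hx, hxb, h2⟩

/-! ### positions -/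

variable {n : ℕ} {G : SimpleGraph (Fin n)} {k : ℕ}

/-- `m` is the mask of the uncoloured vertices that may get colour `c` -/
def IsCol (G : SimpleGraph (Fin n)) (f : Fin n → Option ℕ) (c m : ℕ) : Prop :=
  ∀ i : ℕ, m.testBit i = true ↔
    ∃ h : i < n, f ⟨i, h⟩ = none ∧ ∀ w, G.Adj ⟨i, h⟩ w → f w ≠ some c

/-- `U` is the mask of the uncoloured vertices -/
def IsUnc (f : Fin n → Option ℕ) (U : ℕ) : Prop :=
  ∀ i : ℕ, U.testBit i = true ↔ ∃ h : i < n, f ⟨i, h⟩ = none

/-- `U`, `l` represent the partial colouring `f` -/
def Rep (G : SimpleGraph (Fin n)) (k : ℕ) (f : Fin n → Option ℕ) (U : ℕ) (l : List ℕ) : Prop :=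
  IsUnc f U ∧ ∃ l' : List ℕ, l'.length = k ∧ l.Perm l' ∧
    ∀ (c : ℕ) (hc : c < l'.length), IsCol G f c (l'[c])

/-- the data of a vertex -/
def EntryOK (G : SimpleGraph (Fin n)) (v : Fin n) (e : ℕ × ℕ × ℕ × ℕ × ℕ) : Prop :=
  e.1 = 2 ^ (v : ℕ) ∧ (∀ i : Fin n, e.2.1.testBit i = true ↔ i ≠ v) ∧
    (∀ i : Fin n, e.2.2.1.testBit i = true ↔ (i ≠ v ∧ ¬ G.Adj v i)) ∧
    (∀ i : Fin n, e.2.2.2.1.testBit i = true ↔ G.Adj v i)

instance (G : SimpleGraph (Fin n)) [DecidableRel G.Adj] (v : Fin n) (e : ℕ × ℕ × ℕ × ℕ × ℕ) :
    Decidable (EntryOK G v e) := by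
  unfold EntryOK; infer_instance

/-- the twin datum of a vertex: `0`, or the bit of a later vertex with the same neighbours -/
def TwOK (G : SimpleGraph (Fin n)) (v : Fin n) (tw : ℕ) : Prop :=
  tw = 0 ∨ ∃ u : Fin n, v < u ∧ tw = 2 ^ (u : ℕ) ∧ ∀ w, w ≠ v → w ≠ u → (G.Adj v w ↔ G.Adj u w)

instance (G : SimpleGraph (Fin n)) [DecidableRel G.Adj] (v : Fin n) (tw : ℕ) :
    Decidable (TwOK G v tw) := by
  unfold TwOK; infer_instance

/-- the data of all vertices -/
def VLok (G : SimpleGraph (Fin n)) (vs : VL) : Prop :=
  (∀ e ∈ vs.toList, ∃ v, EntryOK G v e) ∧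
    ∀ v, ∃ e ∈ vs.toList, EntryOK G v e ∧ TwOK G v e.2.2.2.2

instance (G : SimpleGraph (Fin n)) [DecidableRel G.Adj] (vs : VL) : Decidable (VLok G vs) := by
  unfold VLok; infer_instance

theorem land_pow_ne_zero {x i : ℕ} : Nat.land x (2 ^ i) ≠ 0 ↔ x.testBit i = true := by
  have h : Nat.land x (2 ^ i) = x &&& 2 ^ i := rfl
  rw [h, Nat.and_two_pow]
  cases x.testBit i <;> simp

theorem testBit_land (x y i : ℕ) : (Nat.land x y).testBit i = (x.testBit i && y.testBit i) :=
  Nat.testBit_and x y i

theorem Rep.child {f : Fin n → Option ℕ} {U : ℕ} {l : List ℕ} (h : Rep G k f U l) {v : Fin n}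
    {e : ℕ × ℕ × ℕ × ℕ × ℕ} (he : EntryOK G v e) {l' : List ℕ} {c : ℕ} (hc : c < l'.length)
    (hk : l'.length = k) (hp : l.Perm l') (hcol : ∀ (c : ℕ) (hc : c < l'.length),
      IsCol G f c (l'[c])) (hf : f v = none)
    {l2 : List ℕ} (hl2 : l2.Perm (CGT.child e.2.1 e.2.2.1 l (l'[c]))) :
    Rep G k (Function.update f v (some c)) (Nat.land U e.2.1) l2 := by
  obtain ⟨hb, hnb, hna, ha⟩ := he
  refine ⟨?_, (l'.map (fun y => Nat.land y e.2.1)).set c (Nat.land (l'[c]) e.2.2.1), ?_, ?_, ?_⟩
  · intro i
    rw [testBit_land, Bool.and_eq_true, h.1 i]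
    constructor
    · rintro ⟨⟨hi, h1⟩, h2⟩
      refine ⟨hi, ?_⟩
      have := (hnb ⟨i, hi⟩).mp h2
      rw [Function.update_of_ne this]
      exact h1
    · rintro ⟨hi, h1⟩
      have hne : (⟨i, hi⟩ : Fin n) ≠ v := by
        intro h0
        rw [h0] at h1
        simp at h1
      rw [Function.update_of_ne hne] at h1
      exact ⟨⟨hi, h1⟩, (hnb ⟨i, hi⟩).mpr hne⟩
  · simp [hk]
  · have hc' : c < (l'.map (fun y => Nat.land y e.2.1)).length := by simpa using hc
    refine hl2.trans ?_
    refine List.Perm.trans ?_ (List.set_perm_cons_eraseIdx hc' _).symm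
    unfold CGT.child
    refine List.Perm.cons _ ?_
    rw [List.eraseIdx_map]
    refine List.Perm.map _ ?_
    refine (hp.erase _).trans ?_
    have h1 : (l'[c] :: l'.eraseIdx c).Perm l' := List.getElem_cons_eraseIdx_perm hc
    have h2 : (l'.erase (l'[c])).Perm ((l'[c] :: l'.eraseIdx c).erase (l'[c])) :=
      (h1.erase _).symm
    simpa using h2
  · intro c' hc'
    have hc'' : c' < l'.length := by simpa using hc'
    have hold := hcol c' hc''
    intro i
    rw [List.getElem_set]
    by_cases hcc : c = c'
    · subst hcc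
      rw [if_pos rfl, testBit_land, Bool.and_eq_true, hold i]
      constructor
      · rintro ⟨⟨hi, h1, h2⟩, h3⟩
        obtain ⟨h4, h5⟩ := (hna ⟨i, hi⟩).mp h3
        refine ⟨hi, by rw [Function.update_of_ne h4]; exact h1, ?_⟩
        intro w hw
        by_cases hwv : w = v
        · subst hwv; exact absurd hw.symm h5
        · rw [Function.update_of_ne hwv]; exact h2 w hw
      · rintro ⟨hi, h1, h2⟩
        have hne : (⟨i, hi⟩ : Fin n) ≠ v := by
          intro h0
          rw [h0] at h1
          simp at h1
        rw [Function.update_of_ne hne] at h1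
        refine ⟨⟨hi, h1, ?_⟩, (hna ⟨i, hi⟩).mpr ⟨hne, ?_⟩⟩
        · intro w hw
          by_cases hwv : w = v
          · subst hwv; rw [hf]; simp
          · have := h2 w hw
            rwa [Function.update_of_ne hwv] at this
        · intro hadj
          have := h2 v hadj.symm
          simp at this
    · rw [if_neg hcc, List.getElem_map, testBit_land, Bool.and_eq_true, hold i]
      constructor
      · rintro ⟨⟨hi, h1, h2⟩, h3⟩
        have hne := (hnb ⟨i, hi⟩).mp h3
        refine ⟨hi, by rw [Function.update_of_ne hne]; exact h1, ?_⟩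
        intro w hw
        by_cases hwv : w = v
        · subst hwv
          simp only [Function.update_self, ne_eq, Option.some.injEq]
          exact hcc
        · rw [Function.update_of_ne hwv]; exact h2 w hw
      · rintro ⟨hi, h1, h2⟩
        have hne : (⟨i, hi⟩ : Fin n) ≠ v := by
          intro h0
          rw [h0] at h1
          simp at h1
        rw [Function.update_of_ne hne] at h1
        refine ⟨⟨hi, h1, ?_⟩, (hnb ⟨i, hi⟩).mpr hne⟩
        intro w hw
        by_cases hwv : w = v
        · subst hwv; rw [hf]; simp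
        · have := h2 w hw
          rwa [Function.update_of_ne hwv] at this

/-! ### automorphisms -/

theorem ncol_comp (σ : Equiv.Perm (Fin n)) (f : Fin n → Option ℕ) : ncol (f ∘ σ) = ncol f := by
  unfold ncol
  apply Finset.card_bij (fun v _ => σ v)
  · intro v hv
    simpa using hv
  · intro a _ b _ hab
    exact σ.injective hab
  · intro b hb
    exact ⟨σ.symm b, by simpa using hb, by simp⟩

theorem update_comp (σ : Equiv.Perm (Fin n)) (f : Fin n → Option ℕ) (v : Fin n) (o : Option ℕ) :
    Function.update f (σ v) o ∘ σ = Function.update (f ∘ σ) v o := by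
  funext w
  by_cases hw : w = v
  · subst hw; simp
  · have : σ w ≠ σ v := fun h => hw (σ.injective h)
    simp [Function.update_of_ne hw, Function.update_of_ne this]

theorem legal_comp {σ : Equiv.Perm (Fin n)} (hσ : ∀ a b, G.Adj (σ a) (σ b) ↔ G.Adj a b)
    {f : Fin n → Option ℕ} {v : Fin n} {c : ℕ} :
    Legal G k (f ∘ σ) v c ↔ Legal G k f (σ v) c := by
  unfold Legal
  refine and_congr Iff.rfl (and_congr Iff.rfl ?_)
  constructor
  · intro h w hw
    have := h (σ.symm w) ((hσ _ _).mp (by simpa using hw))
    simpa using this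
  · intro h w hw
    exact h (σ w) ((hσ _ _).mpr hw)

theorem awin_comp_of {σ : Equiv.Perm (Fin n)} (hσ : ∀ a b, G.Adj (σ a) (σ b) ↔ G.Adj a b)
    {f : Fin n → Option ℕ} (h : AWin G k f) : AWin G k (f ∘ σ) := by
  obtain ⟨W, hf, hW⟩ := h
  refine ⟨{g | g ∘ σ.symm ∈ W}, ?_, ?_⟩
  · show (f ∘ σ) ∘ σ.symm ∈ W
    have : (f ∘ σ) ∘ σ.symm = f := by funext w; simp
    rw [this]; exact hf
  · intro g hg
    have hg' : g ∘ σ.symm ∈ W := hg
    have hσ' : ∀ a b, G.Adj (σ.symm a) (σ.symm b) ↔ G.Adj a b := by
      intro a b
      rw [← hσ]; simp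
    obtain ⟨h1, h2, h3⟩ := hW _ hg'
    have hn : (Finset.univ.filter (fun v => (g ∘ σ.symm) v ≠ none)).card =
        (Finset.univ.filter (fun v => g v ≠ none)).card := ncol_comp σ.symm g
    have hup : ∀ v c, Function.update (g ∘ σ.symm) v (some c) ∈ W →
        Function.update g (σ.symm v) (some c) ∘ σ.symm ∈ W := by
      intro v c hh
      rw [update_comp]; exact hh
    refine ⟨?_, ?_, ?_⟩
    · intro hno v hv
      refine h1 ?_ (σ v) (by simpa using hv)
      rintro ⟨w, c, hw⟩
      exact hno ⟨σ.symm w, c, (legal_comp (k := k) hσ').mp ⟨hw.1, hw.2.1, hw.2.2⟩⟩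
    · intro he hex
      rw [hn] at h2
      obtain ⟨v, c, hv⟩ := hex
      have hleg : Legal G k (g ∘ σ.symm) (σ v) c := by
        rw [legal_comp hσ', Equiv.symm_apply_apply]
        exact ⟨hv.1, hv.2.1, hv.2.2⟩
      obtain ⟨w, d, a1, a2, a3, a4⟩ := h2 he ⟨σ v, c, hleg.1, hleg.2.1, hleg.2.2⟩
      have hl2 : Legal G k g (σ.symm w) d := (legal_comp (k := k) hσ').mp ⟨a1, a2, a3⟩
      exact ⟨σ.symm w, d, hl2.1, hl2.2.1, hl2.2.2, hup _ _ a4⟩
    · intro he v c b1 b2 b3
      rw [hn] at h3
      have hleg : Legal G k (g ∘ σ.symm) (σ v) c := by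
        rw [legal_comp hσ', Equiv.symm_apply_apply]
        exact ⟨b1, b2, b3⟩
      have := hup _ _ (h3 he (σ v) c hleg.1 hleg.2.1 hleg.2.2)
      show Function.update g v (some c) ∘ σ.symm ∈ W
      simpa using this

theorem awin_comp {σ : Equiv.Perm (Fin n)} (hσ : ∀ a b, G.Adj (σ a) (σ b) ↔ G.Adj a b)
    {f : Fin n → Option ℕ} : AWin G k (f ∘ σ) ↔ AWin G k f := by
  constructor
  · intro h
    have hσ' : ∀ a b, G.Adj (σ.symm a) (σ.symm b) ↔ G.Adj a b := by
      intro a b
      rw [← hσ]; simp
    have := awin_comp_of hσ' h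
    have e : (f ∘ σ) ∘ σ.symm = f := by funext w; simp
    rwa [e] at this
  · exact awin_comp_of hσ

/-- twins -/
theorem twin_swap {v u : Fin n} (hvu : v ≠ u)
    (h : ∀ w, w ≠ v → w ≠ u → (G.Adj v w ↔ G.Adj u w)) :
    ∀ a b, G.Adj (Equiv.swap v u a) (Equiv.swap v u b) ↔ G.Adj a b := by
  intro a b
  by_cases ha : a = v
  · subst ha
    rw [Equiv.swap_apply_left]
    by_cases hb : b = a
    · subst hb
      rw [Equiv.swap_apply_left]
      simp
    · by_cases hb2 : b = u
      · subst hb2
        rw [Equiv.swap_apply_right]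
        exact G.adj_comm _ _
      · rw [Equiv.swap_apply_of_ne_of_ne hb hb2]
        exact (h b hb hb2).symm
  · by_cases ha2 : a = u
    · subst ha2
      rw [Equiv.swap_apply_right]
      by_cases hb : b = v
      · subst hb
        rw [Equiv.swap_apply_left]
        exact G.adj_comm _ _
      · by_cases hb2 : b = a
        · subst hb2
          rw [Equiv.swap_apply_right]
          simp
        · rw [Equiv.swap_apply_of_ne_of_ne hb hb2]
          exact h b hb hb2
    · rw [Equiv.swap_apply_of_ne_of_ne ha ha2]
      by_cases hb : b = v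
      · subst hb
        rw [Equiv.swap_apply_left, G.adj_comm a u, G.adj_comm a b]
        exact (h a ha ha2).symm
      · by_cases hb2 : b = u
        · subst hb2
          rw [Equiv.swap_apply_right, G.adj_comm a v, G.adj_comm a b]
          exact h a ha ha2
        · rw [Equiv.swap_apply_of_ne_of_ne hb hb2]

/-- the last uncoloured twin -/
theorem twin_rep {f : Fin n → Option ℕ} {U : ℕ} {l : List ℕ} (h : Rep G k f U l)
    {vs : VL} (hvs : VLok G vs) {v : Fin n} {c : ℕ} (hl : Legal G k f v c) :
    ∃ v' : Fin n, Legal G k f v' c ∧ (∃ e ∈ vs.toList, EntryOK G v' e ∧ Nat.land U e.2.2.2.2 = 0) ∧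
      (AWin G k (Function.update f v (some c)) ↔ AWin G k (Function.update f v' (some c))) := by
  induction hm : n - (v : ℕ) using Nat.strong_induction_on generalizing v with
  | _ m ih =>
    obtain ⟨e, hemem, he, htw⟩ := hvs.2 v
    by_cases hz : Nat.land U e.2.2.2.2 = 0
    · exact ⟨v, hl, ⟨e, hemem, he, hz⟩, Iff.rfl⟩
    · rcases htw with h0 | ⟨u, hvu, htu, hadj⟩
      · exfalso
        apply hz
        rw [h0]
        exact Nat.and_zero U
      · rw [htu] at hz
        replace hz := land_pow_ne_zero.mp hz
        obtain ⟨_, hfu⟩ := (h.1 u).mp hz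
        have hfu' : f u = none := hfu
        have hne : v ≠ u := ne_of_lt hvu
        have hσ := twin_swap hne hadj
        have hfσ : f ∘ Equiv.swap v u = f := by
          funext w
          by_cases hw : w = v
          · subst hw; simp [hfu', hl.1]
          · by_cases hw2 : w = u
            · subst hw2; simp [hfu', hl.1]
            · simp [Equiv.swap_apply_of_ne_of_ne hw hw2]
        have hlu : Legal G k f u c := by
          have h2 : Legal G k (f ∘ Equiv.swap v u) v c := by rw [hfσ]; exact hl
          rw [legal_comp hσ] at h2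
          simpa using h2
        have hmlt : n - (u : ℕ) < m := by
          have := u.2
          have : (v : ℕ) < (u : ℕ) := hvu
          omega
        obtain ⟨v', h1, h2, h3⟩ := ih _ hmlt hlu rfl
        refine ⟨v', h1, h2, ?_⟩
        rw [← h3]
        have e1 : Function.update f v (some c) =
            Function.update f u (some c) ∘ Equiv.swap v u := by
          have := update_comp (Equiv.swap v u) f v (some c)
          rw [Equiv.swap_apply_left] at this
          rw [this, hfσ]
        rw [e1, awin_comp hσ]

/-- the opponent's moves -/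
theorem Rep.allCh {f : Fin n → Option ℕ} {U : ℕ} {l : List ℕ} (h : Rep G k f U l)
    {P : ℕ → List ℕ → Bool} {vs : VL} (hvs : VLok G vs) (hc : allCh P vs U l = true)
    {v : Fin n} {c : ℕ} (hl : Legal G k f v c) :
    ∃ v', Legal G k f v' c ∧
      (AWin G k (Function.update f v (some c)) ↔ AWin G k (Function.update f v' (some c))) ∧
      ∃ U2 l2, Rep G k (Function.update f v' (some c)) U2 l2 ∧ P U2 l2 = true := by
  obtain ⟨v', hl', ⟨e, hemem, he, hz⟩, hiff⟩ := twin_rep h hvs hl
  refine ⟨v', hl', hiff, ?_⟩
  obtain ⟨l', hk, hp, hcol⟩ := h.2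
  have hcl : c < l'.length := by rw [hk]; exact hl.2.1
  have hUb : Nat.land U e.1 ≠ 0 := by
    rw [he.1, land_pow_ne_zero, h.1]
    exact ⟨v'.2, hl'.1⟩
  have hxb : Nat.land (l'[c]) e.1 ≠ 0 := by
    rw [he.1, land_pow_ne_zero, hcol c hcl]
    exact ⟨v'.2, hl'.1, hl'.2.2⟩
  have hx : l'[c] ∈ l := hp.symm.subset (List.getElem_mem hcl)
  obtain ⟨l2, h2, h3⟩ := allCh_spec vs hc e hemem hUb hz _ hx hxb
  exact ⟨_, l2, h.child he hcl hk hp hcol hl'.1 h2, h3⟩

/-- the own move -/
theorem Rep.exCh {f : Fin n → Option ℕ} {U : ℕ} {l : List ℕ} (h : Rep G k f U l)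
    {P : ℕ → List ℕ → Bool} {vs : VL} (hvs : VLok G vs) {bv j : ℕ}
    (hc : exCh P vs U l bv j = true) :
    ∃ v c, Legal G k f v c ∧
      ∃ U2 l2, Rep G k (Function.update f v (some c)) U2 l2 ∧ P U2 l2 = true := by
  obtain ⟨e, hemem, x, hx, hxb, l2, h2, h3⟩ := exCh_spec vs hc
  obtain ⟨v, he⟩ := hvs.1 e hemem
  obtain ⟨l', hk, hp, hcol⟩ := h.2
  have hx' : x ∈ l' := hp.subset hx
  obtain ⟨c, hcl, rfl⟩ := List.mem_iff_getElem.mp hx'
  rw [he.1, land_pow_ne_zero, hcol c hcl] at hxb
  obtain ⟨_, h4, h5⟩ := hxb
  refine ⟨v, c, ⟨h4, by rw [← hk]; exact hcl, h5⟩, _, l2, h.child he hcl hk hp hcol h4 h2, h3⟩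

/-! ### packing -/

theorem pack_cons (y : ℕ) (t : List ℕ) : pack (y :: t) = y + 4294967296 * pack t := rfl

theorem pack_inj : ∀ (l l' : List ℕ), l.length = l'.length → (∀ x ∈ l, x < 4294967296) →
    (∀ x ∈ l', x < 4294967296) → pack l = pack l' → l = l' := by
  intro l
  induction l with
  | nil => intro l' hl _ _ _; exact (List.length_eq_zero_iff.mp hl.symm).symm
  | cons x t ih =>
    intro l' hl h1 h2 h
    cases l' with
    | nil => simp at hl
    | cons x' t' =>
      rw [pack_cons, pack_cons] at h
      have hx := h1 x List.mem_cons_self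
      have hx' := h2 x' List.mem_cons_self
      have e1 : x = x' := by omega
      have e2 : pack t = pack t' := by omega
      rw [e1, ih t' (by simpa using hl) (fun y hy => h1 y (List.mem_cons_of_mem _ hy))
        (fun y hy => h2 y (List.mem_cons_of_mem _ hy)) e2]

theorem unpk_spec : ∀ (m key : ℕ), (unpk m key).length = m ∧ (∀ x ∈ unpk m key, x < 4294967296) ∧
    (key < 4294967296 ^ m → pack (unpk m key) = key) := by
  intro m
  induction m with
  | zero =>
    intro key
    refine ⟨rfl, by simp [unpk], ?_⟩
    intro h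
    have : key = 0 := by simpa using h
    rw [this]; rfl
  | succ m ih =>
    intro key
    have hu : unpk (m + 1) key = Nat.land key 4294967295 :: unpk m (Nat.shiftRight key 32) := rfl
    have hland : Nat.land key 4294967295 = key % 4294967296 := by
      have : Nat.land key 4294967295 = key &&& (2 ^ 32 - 1) := rfl
      rw [this, Nat.and_two_pow_sub_one_eq_mod]
    have hsh : Nat.shiftRight key 32 = key / 4294967296 := by
      have : Nat.shiftRight key 32 = key >>> 32 := rfl
      rw [this, Nat.shiftRight_eq_div_pow]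
    obtain ⟨h1, h2, h3⟩ := ih (Nat.shiftRight key 32)
    rw [hu]
    refine ⟨by rw [List.length_cons, h1], ?_, ?_⟩
    · intro x hx
      rcases List.mem_cons.mp hx with rfl | hx
      · rw [hland]; exact Nat.mod_lt _ (by norm_num)
      · exact h2 x hx
    · intro hk
      rw [pack_cons, h3, hland, hsh]
      · omega
      · rw [hsh]
        rw [pow_succ] at hk
        exact Nat.div_lt_of_lt_mul (by rw [mul_comm]; exact hk)

theorem IsUnc.lt {f : Fin n → Option ℕ} {U : ℕ} (hn : n ≤ 32) (h : IsUnc f U) : U < 4294967296 := by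
  have : U < 2 ^ 32 := by
    apply Nat.lt_pow_two_of_testBit
    intro i hi
    by_contra hne
    have := (h i).mp (by simpa using hne)
    obtain ⟨h1, _⟩ := this
    omega
  simpa using this

theorem IsCol.lt {f : Fin n → Option ℕ} {c m : ℕ} (hn : n ≤ 32) (h : IsCol G f c m) :
    m < 4294967296 := by
  have : m < 2 ^ 32 := by
    apply Nat.lt_pow_two_of_testBit
    intro i hi
    by_contra hne
    have := (h i).mp (by simpa using hne)
    obtain ⟨h1, _⟩ := this
    omega
  simpa using this

theorem Rep.lt {f : Fin n → Option ℕ} {U : ℕ} {l : List ℕ} (hn : n ≤ 32) (h : Rep G k f U l) :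
    l.length = k ∧ U < 4294967296 ∧ ∀ x ∈ l, x < 4294967296 := by
  obtain ⟨hU, l', hk, hp, hcol⟩ := h
  refine ⟨by rw [hp.length_eq, hk], hU.lt hn, ?_⟩
  intro x hx
  obtain ⟨c, hc, rfl⟩ := List.mem_iff_getElem.mp (hp.subset hx)
  exact (hcol c hc).lt hn

theorem pack_lt : ∀ (l : List ℕ), (∀ x ∈ l, x < 4294967296) → pack l < 4294967296 ^ l.length := by
  intro l
  induction l with
  | nil => intro _; simp [pack]
  | cons x t ih =>
    intro h
    rw [pack_cons, List.length_cons, pow_succ]
    have h1 := h x List.mem_cons_self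
    have h2 := ih (fun y hy => h y (List.mem_cons_of_mem _ hy))
    nlinarith

/-- unpacking the code of a position gives it back -/
theorem Rep.unpack {f : Fin n → Option ℕ} {U : ℕ} {l : List ℕ} (hn : n ≤ 32)
    (h : Rep G k f U l) {key : ℕ} (hk : pack (U :: l) = key) :
    Nat.land key 4294967295 = U ∧ unpk k (Nat.shiftRight key 32) = l := by
  obtain ⟨h1, h2, h3⟩ := h.lt hn
  obtain ⟨g1, g2, g3⟩ := unpk_spec (k + 1) key
  have hall : ∀ x ∈ U :: l, x < 4294967296 := by
    intro x hx
    rcases List.mem_cons.mp hx with rfl | hx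
    · exact h2
    · exact h3 x hx
  have hlt : key < 4294967296 ^ (k + 1) := by
    have := pack_lt (U :: l) hall
    rw [hk] at this
    simpa [h1] using this
  have := pack_inj (unpk (k + 1) key) (U :: l) (by simp [g1, h1]) g2 hall (by rw [g3 hlt, hk])
  have hu : unpk (k + 1) key = Nat.land key 4294967295 :: unpk k (Nat.shiftRight key 32) := rfl
  rw [hu] at this
  simpa using this

/-! ### safe positions -/

/-- number of columns containing the vertex `v` -/
def cnt (v : ℕ) (l : List ℕ) : ℕ := l.countP (fun x => x.testBit v)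

theorem exists_low (x : ℕ) : ∃ i0 : ℕ, ∀ i, i ≠ i0 → x.testBit i = true →
    (Nat.land x (Nat.sub x 1)).testBit i = true := by
  induction x using Nat.strong_induction_on with
  | _ x ih =>
    rcases Nat.eq_zero_or_pos x with rfl | hx
    · exact ⟨0, fun i _ h => by simp at h⟩
    · rcases Nat.even_or_odd' x with ⟨y, hy | hy⟩
      · -- x = 2 y
        have hy0 : 0 < y := by omega
        obtain ⟨i0, h0⟩ := ih y (by omega)
        refine ⟨i0 + 1, ?_⟩
        intro i hi hb
        have hx1 : Nat.sub x 1 = 2 * (Nat.sub y 1) + 1 := by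
          show x - 1 = 2 * (y - 1) + 1
          omega
        rw [testBit_land, Bool.and_eq_true]
        refine ⟨hb, ?_⟩
        cases i with
        | zero => rw [hx1]; simp
        | succ i =>
          rw [hy] at hb
          have hb' : y.testBit i = true := by
            rw [Nat.testBit_succ] at hb
            simpa using hb
          have := h0 i (by omega) hb'
          rw [testBit_land, Bool.and_eq_true] at this
          rw [hx1, Nat.testBit_succ]
          have e : (2 * (Nat.sub y 1) + 1) / 2 = Nat.sub y 1 := by omega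
          rw [e]
          exact this.2
      · refine ⟨0, ?_⟩
        intro i hi hb
        rw [testBit_land, Bool.and_eq_true]
        refine ⟨hb, ?_⟩
        have hx1 : Nat.sub x 1 = 2 * y := by
          show x - 1 = 2 * y
          omega
        cases i with
        | zero => exact absurd rfl hi
        | succ i =>
          rw [hy, Nat.testBit_succ] at hb
          rw [hx1, Nat.testBit_succ]
          have e1 : (2 * y + 1) / 2 = y := by omega
          have e2 : (2 * y) / 2 = y := by omega
          rw [e1] at hb
          rw [e2]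
          exact hb

/-- number of bits below `n` -/
def pc (n x : ℕ) : ℕ := (univ.filter (fun i : Fin n => x.testBit i = true)).card

theorem pc_low (n x : ℕ) : pc n x ≤ pc n (Nat.land x (Nat.sub x 1)) + 1 := by
  obtain ⟨i0, h0⟩ := exists_low x
  unfold pc
  by_cases hi : i0 < n
  · have : (univ.filter (fun i : Fin n => x.testBit i = true)) ⊆
        insert (⟨i0, hi⟩ : Fin n)
          (univ.filter (fun i : Fin n => (Nat.land x (Nat.sub x 1)).testBit i = true)) := by
      intro i hi'
      rw [Finset.mem_filter] at hi'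
      rw [Finset.mem_insert, Finset.mem_filter]
      by_cases h : i = ⟨i0, hi⟩
      · left; exact h
      · right
        refine ⟨Finset.mem_univ _, h0 i ?_ hi'.2⟩
        intro e
        exact h (Fin.ext e)
    exact (Finset.card_le_card this).trans (Finset.card_insert_le _ _)
  · have : (univ.filter (fun i : Fin n => x.testBit i = true)) ⊆
          (univ.filter (fun i : Fin n => (Nat.land x (Nat.sub x 1)).testBit i = true)) := by
      intro i hi'
      rw [Finset.mem_filter] at hi' ⊢
      refine ⟨Finset.mem_univ _, h0 i ?_ hi'.2⟩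
      intro e
      exact hi (e ▸ i.2)
    exact (Finset.card_le_card this).trans (Nat.le_succ _)

theorem gtb_spec (v : ℕ) : ∀ (l : List ℕ) (x : ℕ), gtb (2 ^ v) l x = true →
    pc n x < cnt v l := by
  intro l
  induction l with
  | nil => intro x h; exact absurd h (by simp [gtb])
  | cons y t ih =>
    intro x h
    change Bool.rec (motive := fun _ => Bool)
      (Bool.rec (motive := fun _ => Bool) (gtb (2 ^ v) t (Nat.land x (Nat.sub x 1))) true
        (Nat.beq x 0))
      (gtb (2 ^ v) t x) (Nat.beq (Nat.land y (2 ^ v)) 0) = true at h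
    have hc : cnt v (y :: t) = cnt v t + if y.testBit v = true then 1 else 0 := by
      unfold cnt
      rw [List.countP_cons]
    rcases hb : Nat.beq (Nat.land y (2 ^ v)) 0 with _ | _
    · rw [hb] at h
      have hyb : y.testBit v = true := by
        rw [← land_pow_ne_zero]
        intro h0
        rw [h0] at hb
        simp at hb
      rw [hc, if_pos hyb]
      change Bool.rec (motive := fun _ => Bool) (gtb (2 ^ v) t (Nat.land x (Nat.sub x 1))) true
        (Nat.beq x 0) = true at h
      rcases hx : Nat.beq x 0 with _ | _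
      · rw [hx] at h
        have h1 := ih _ h
        have h2 := pc_low n x
        omega
      · have hx0 : x = 0 := Nat.eq_of_beq_eq_true hx
        rw [hx0]
        unfold pc
        simp
    · rw [hb] at h
      have h1 := ih x h
      rw [hc]
      omega

theorem cnt_eq {f : Fin n → Option ℕ} {l l' : List ℕ} [DecidableRel G.Adj]
    (hp : l.Perm l') (hcol : ∀ (c : ℕ) (hc : c < l'.length), IsCol G f c (l'[c]))
    (v : Fin n) (hv : f v = none) :
    cnt v l = ((range l'.length).filter (fun c => ∀ w, G.Adj v w → f w ≠ some c)).card := by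
  unfold cnt
  rw [hp.countP_eq]
  have hgen : ∀ (l' : List ℕ) (s : ℕ),
      (∀ (c : ℕ) (hc : c < l'.length), IsCol G f (s + c) (l'[c])) →
      l'.countP (fun x => x.testBit v) =
        ((range l'.length).filter (fun c => ∀ w, G.Adj v w → f w ≠ some (s + c))).card := by
    intro l'
    induction l' with
    | nil => intro s _; simp
    | cons y t ih =>
      intro s h
      rw [List.countP_cons, List.length_cons, Finset.card_filter, Finset.sum_range_succ',
        ih (s + 1), Finset.card_filter]
      · have h0 := h 0 (by simp)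
        have hy : y.testBit v = true ↔ ∀ w, G.Adj v w → f w ≠ some (s + 0) := by
          have := h0 v
          simp only [List.getElem_cons_zero] at this
          rw [this]
          constructor
          · rintro ⟨_, _, h3⟩; exact h3
          · intro h3; exact ⟨v.2, hv, h3⟩
        congr 1
        · apply Finset.sum_congr rfl
          intro c _
          have : s + (c + 1) = s + 1 + c := by omega
          simp only [this]
        · by_cases hyb : y.testBit v = true
          · rw [if_pos hyb, if_pos (hy.mp hyb)]
          · rw [if_neg hyb, if_neg (fun h => hyb (hy.mpr h))]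
      · intro c hc
        have := h (c + 1) (by simpa using hc)
        have e : s + 1 + c = s + (c + 1) := by omega
        rw [e]
        simpa using this
  have := hgen l' 0 (by simpa using hcol)
  simpa using this

theorem safe_spec {f : Fin n → Option ℕ} {U : ℕ} {l : List ℕ} [DecidableRel G.Adj]
    (h : Rep G k f U l) {vs : VL} (hvs : VLok G vs) (hs : safe vs U l = true) :
    Safe G k f := by
  obtain ⟨hU, l', hk, hp, hcol⟩ := h
  have key : ∀ e ∈ vs.toList, Nat.land U e.1 ≠ 0 →
      gtb e.1 l (Nat.land e.2.2.2.1 U) = true := by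
    clear hvs
    induction vs with
    | nil => intro e he; simp [VL.toList] at he
    | cons b nb na a tw t ih =>
      intro e he hUe
      change Bool.rec (motive := fun _ => Bool)
        (Bool.rec (motive := fun _ => Bool) false (safe t U l) (gtb b l (Nat.land a U)))
        (safe t U l) (Nat.beq (Nat.land U b) 0) = true at hs
      rcases hb : Nat.beq (Nat.land U b) 0 with _ | _
      · rw [hb] at hs
        change Bool.rec (motive := fun _ => Bool) false (safe t U l)
          (gtb b l (Nat.land a U)) = true at hs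
        rcases hg : gtb b l (Nat.land a U) with _ | _
        · rw [hg] at hs
          exact absurd hs (by simp)
        · rw [hg] at hs
          simp only [VL.toList, List.mem_cons] at he
          rcases he with rfl | he
          · exact hg
          · exact ih hs e he hUe
      · rw [hb] at hs
        simp only [VL.toList, List.mem_cons] at he
        rcases he with rfl | he
        · exact absurd (Nat.eq_of_beq_eq_true hb) hUe
        · exact ih hs e he hUe
  intro v hv
  obtain ⟨e, hemem, he, _⟩ := hvs.2 v
  have hUb : Nat.land U e.1 ≠ 0 := by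
    rw [he.1, land_pow_ne_zero, hU]
    exact ⟨v.2, hv⟩
  have hg := key e hemem hUb
  rw [he.1] at hg
  have h1 := gtb_spec (n := n) (v : ℕ) l _ hg
  rw [cnt_eq hp hcol v hv, hk] at h1
  have h4 : (univ.filter (fun w => G.Adj v w ∧ f w = none)).card =
      pc n (Nat.land e.2.2.2.1 U) := by
    unfold pc
    congr 1
    apply Finset.filter_congr
    intro w _
    rw [testBit_land, Bool.and_eq_true, he.2.2.2 w, hU]
    constructor
    · rintro ⟨h1, h2⟩; exact ⟨h1, w.2, h2⟩
    · rintro ⟨h1, _, h2⟩; exact ⟨h1, h2⟩
  rw [h4]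
  refine lt_of_lt_of_eq h1 ?_
  congr

/-! ### Bob's immediate wins -/

theorem testBit_lor (x y i : ℕ) : (Nat.lor x y).testBit i = (x.testBit i || y.testBit i) :=
  Nat.testBit_or x y i

theorem otL_spec (P : ℕ → ℕ → Bool) : ∀ (l : List ℕ) (o t : ℕ),
    otL l o t P = true → ∃ o' t', P o' t' = true ∧
      ∀ v m, (o.testBit v = true ↔ 1 ≤ m) → (t.testBit v = true ↔ 2 ≤ m) →
        (o'.testBit v = true ↔ 1 ≤ m + cnt v l) ∧ (t'.testBit v = true ↔ 2 ≤ m + cnt v l) := by
  intro l
  induction l with
  | nil =>
    intro o t h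
    exact ⟨o, t, h, fun v m h1 h2 => by simpa [cnt] using ⟨h1, h2⟩⟩
  | cons y l ih =>
    intro o t h
    obtain ⟨o', t', hP, h'⟩ := ih (Nat.lor o y) (Nat.lor t (Nat.land o y)) h
    refine ⟨o', t', hP, ?_⟩
    intro v m h1 h2
    have hc : cnt v (y :: l) = cnt v l + if y.testBit v = true then 1 else 0 := by
      unfold cnt
      rw [List.countP_cons]
    by_cases hy : y.testBit v = true
    · have := h' v (m + 1) (by rw [testBit_lor, hy]; simp) (by
        rw [testBit_lor, testBit_land, hy, Bool.and_true, Bool.or_eq_true, h1, h2]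
        omega)
      rw [hc, if_pos hy]
      have e : m + (cnt v l + 1) = m + 1 + cnt v l := by omega
      rw [e]
      exact this
    · have hy' : y.testBit v = false := by simpa using hy
      have := h' v m (by rw [testBit_lor, hy', Bool.or_false]; exact h1) (by
        rw [testBit_lor, testBit_land, hy', Bool.and_false, Bool.or_false]; exact h2)
      rw [hc, if_neg hy]
      exact this

theorem anyC_spec (b a : ℕ) : ∀ (l : List ℕ), anyC b a l = true →
    ∃ x ∈ l, Nat.land x b ≠ 0 ∧ Nat.land x a ≠ 0 := by
  intro l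
  induction l with
  | nil => intro h; exact absurd h (by simp [anyC])
  | cons y t ih =>
    intro h
    change Bool.rec (motive := fun _ => Bool)
      (Bool.rec (motive := fun _ => Bool) true (anyC b a t) (Nat.beq (Nat.land y a) 0))
      (anyC b a t) (Nat.beq (Nat.land y b) 0) = true at h
    have hrec : anyC b a t = true → ∃ x ∈ y :: t, Nat.land x b ≠ 0 ∧ Nat.land x a ≠ 0 := by
      intro h
      obtain ⟨x, hx, h2⟩ := ih h
      exact ⟨x, List.mem_cons_of_mem _ hx, h2⟩
    rcases hb : Nat.beq (Nat.land y b) 0 with _ | _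
    · rw [hb] at h
      change Bool.rec (motive := fun _ => Bool) true (anyC b a t)
        (Nat.beq (Nat.land y a) 0) = true at h
      rcases ha : Nat.beq (Nat.land y a) 0 with _ | _
      · refine ⟨y, List.mem_cons_self, ?_, ?_⟩
        · intro h0; rw [h0] at hb; simp at hb
        · intro h0; rw [h0] at ha; simp at ha
      · rw [ha] at h
        exact hrec h
    · rw [hb] at h
      exact hrec h

theorem kill_spec {U t : ℕ} {l : List ℕ} (vs : VL) (h : kill U t l vs = true) :
    ∃ e ∈ vs.toList, Nat.land U e.1 ≠ 0 ∧ Nat.land t e.1 = 0 ∧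
      ∃ x ∈ l, Nat.land x e.1 ≠ 0 ∧ Nat.land x e.2.2.2.1 ≠ 0 := by
  induction vs with
  | nil => exact absurd h (by simp [kill])
  | cons b nb na a tw vt ih =>
    change Bool.rec (motive := fun _ => Bool)
      (Bool.rec (motive := fun _ => Bool) (kill U t l vt)
        (Bool.rec (motive := fun _ => Bool) (kill U t l vt) true (anyC b a l))
        (Nat.beq (Nat.land t b) 0))
      (kill U t l vt) (Nat.beq (Nat.land U b) 0) = true at h
    have hrec : kill U t l vt = true → ∃ e ∈ (VL.cons b nb na a tw vt).toList,
        Nat.land U e.1 ≠ 0 ∧ Nat.land t e.1 = 0 ∧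
        ∃ x ∈ l, Nat.land x e.1 ≠ 0 ∧ Nat.land x e.2.2.2.1 ≠ 0 := by
      intro h
      obtain ⟨e, he, h2⟩ := ih h
      exact ⟨e, by simp [VL.toList, he], h2⟩
    rcases hU : Nat.beq (Nat.land U b) 0 with _ | _
    · rw [hU] at h
      change Bool.rec (motive := fun _ => Bool) (kill U t l vt)
        (Bool.rec (motive := fun _ => Bool) (kill U t l vt) true (anyC b a l))
        (Nat.beq (Nat.land t b) 0) = true at h
      rcases ht : Nat.beq (Nat.land t b) 0 with _ | _
      · rw [ht] at h
        exact hrec h
      · rw [ht] at h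
        change Bool.rec (motive := fun _ => Bool) (kill U t l vt) true (anyC b a l) = true at h
        rcases ha : anyC b a l with _ | _
        · rw [ha] at h
          exact hrec h
        · obtain ⟨x, hx, h1, h2⟩ := anyC_spec b a l ha
          refine ⟨(b, nb, na, a, tw), by simp [VL.toList], ?_, Nat.eq_of_beq_eq_true ht, x, hx, h1, h2⟩
          intro h0; rw [h0] at hU; simp at hU
    · rw [hU] at h
      exact hrec h

theorem two_le_countP {α : Type} (p : α → Bool) (l : List α) {i j : ℕ} (hi : i < l.length)
    (hj : j < l.length) (hij : i ≠ j) (h1 : p (l[i]) = true) (h2 : p (l[j]) = true) :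
    2 ≤ l.countP p := by
  induction l generalizing i j with
  | nil => simp at hi
  | cons y t ih =>
    rw [List.countP_cons]
    cases i with
    | zero =>
      cases j with
      | zero => exact absurd rfl hij
      | succ j =>
        simp only [List.getElem_cons_zero] at h1
        simp only [List.getElem_cons_succ] at h2
        have : 0 < t.countP p := by
          rw [List.countP_pos_iff]
          exact ⟨_, List.getElem_mem _, h2⟩
        rw [if_pos h1]
        omega
    | succ i =>
      cases j with
      | zero =>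
        simp only [List.getElem_cons_zero] at h2
        simp only [List.getElem_cons_succ] at h1
        have : 0 < t.countP p := by
          rw [List.countP_pos_iff]
          exact ⟨_, List.getElem_mem _, h1⟩
        rw [if_pos h2]
        omega
      | succ j =>
        simp only [List.getElem_cons_succ] at h1 h2
        have := ih (i := i) (j := j) (by simpa using hi) (by simpa using hj)
          (fun e => hij (by rw [e])) h1 h2
        omega

theorem lost_spec {f : Fin n → Option ℕ} {U : ℕ} {l : List ℕ} (h : Rep G k f U l) {vs : VL}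
    (hvs : VLok G vs) (he : ¬ Even (ncol f)) (hs : lost vs U l = true) : ¬ AWin G k f := by
  classical
  obtain ⟨hU, l', hk, hp, hcol⟩ := h
  obtain ⟨o, t, hP, hot⟩ := otL_spec _ l 0 0 hs
  have hot' : ∀ v, (o.testBit v = true ↔ 1 ≤ cnt v l) ∧ (t.testBit v = true ↔ 2 ≤ cnt v l) := by
    intro v
    have := hot v 0 (by simp) (by simp)
    simpa using this
  rcases hUo : Nat.beq (Nat.land U o) U with _ | _
  · -- a dead vertex
    have hne : Nat.land U o ≠ U := by
      intro h0; rw [h0] at hUo; simp at hUo
    have : ∃ i, U.testBit i = true ∧ o.testBit i = false := by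
      by_contra hcon
      push Not at hcon
      apply hne
      apply Nat.eq_of_testBit_eq
      intro i
      rw [testBit_land]
      by_cases hi : U.testBit i = true
      · have := hcon i hi
        simp only [ne_eq, Bool.not_eq_false] at this
        rw [hi, this]; rfl
      · have hi' : U.testBit i = false := by simpa using hi
        rw [hi']; rfl
    obtain ⟨i, hi, hio⟩ := this
    obtain ⟨hin, hfi⟩ := (hU i).mp hi
    apply not_awin_dead (v := ⟨i, hin⟩)
    refine ⟨hfi, ?_⟩
    intro c hc
    by_contra hcon
    push Not at hcon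
    have hcl : c < l'.length := by rw [hk]; exact hc
    have hb : (l'[c]).testBit i = true := (hcol c hcl i).mpr ⟨hin, hfi, hcon⟩
    have hpos : 0 < cnt i l := by
      unfold cnt
      rw [hp.countP_eq, List.countP_pos_iff]
      exact ⟨_, List.getElem_mem hcl, hb⟩
    have := (hot' i).1.mpr hpos
    rw [this] at hio
    exact absurd hio (by simp)
  · rw [hUo] at hP
    change kill U t l vs = true at hP
    obtain ⟨e, hemem, h1, h2, x, hx, h3, h4⟩ := kill_spec vs hP
    obtain ⟨v, hb, hnb, hna, ha⟩ := hvs.1 e hemem
    rw [hb, land_pow_ne_zero] at h1 h3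
    have ht : t.testBit v = false := by
      by_contra hcon
      have := land_pow_ne_zero.mpr (by simpa using hcon : t.testBit v = true)
      rw [← hb] at this
      exact this h2
    obtain ⟨c, hcl, hxc⟩ := List.mem_iff_getElem.mp (hp.subset hx)
    subst hxc
    have hfv : f v = none := by
      obtain ⟨_, h⟩ := (hU v).mp h1
      exact h
    -- a common bit of the column and the neighbourhood
    have : ∃ i, (l'[c]).testBit i = true ∧ e.2.2.2.1.testBit i = true := by
      by_contra hcon
      push Not at hcon
      apply h4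
      apply Nat.eq_of_testBit_eq
      intro i
      rw [testBit_land, Nat.zero_testBit]
      by_cases hi : (l'[c]).testBit i = true
      · have := hcon i hi
        simp only [ne_eq, Bool.not_eq_true] at this
        rw [this, Bool.and_false]
      · have hi' : (l'[c]).testBit i = false := by simpa using hi
        rw [hi']; rfl
    obtain ⟨i, hi1, hi2⟩ := this
    obtain ⟨hin, hfi, hav⟩ := (hcol c hcl i).mp hi1
    have hadj : G.Adj v ⟨i, hin⟩ := (ha ⟨i, hin⟩).mp hi2
    have hleg : Legal G k f ⟨i, hin⟩ c := ⟨hfi, by rw [← hk]; exact hcl, hav⟩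
    apply not_awin_of_move he hleg
    apply not_awin_dead (v := v)
    refine ⟨by rw [Function.update_of_ne hadj.ne]; exact hfv, ?_⟩
    intro d hd
    by_cases hdc : d = c
    · exact ⟨⟨i, hin⟩, hadj, by rw [hdc]; simp⟩
    · by_contra hcon
      push Not at hcon
      have hdl : d < l'.length := by rw [hk]; exact hd
      have hb2 : (l'[d]).testBit v = true := by
        refine (hcol d hdl v).mpr ⟨v.2, hfv, ?_⟩
        intro w hw
        have hwi : w ≠ ⟨i, hin⟩ ∨ w = ⟨i, hin⟩ := by tauto
        rcases hwi with hwi | hwi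
        · have := hcon w hw
          rwa [Function.update_of_ne hwi] at this
        · rw [hwi, hfi]; simp
      have h5 : 2 ≤ cnt v l := by
        unfold cnt
        rw [hp.countP_eq]
        exact two_le_countP _ _ hdl hcl hdc hb2 h3
      have := (hot' v).2.mpr h5
      rw [this] at ht
      exact absurd ht (by simp)

/-! ### search trees -/

/-- the codes in a tree -/
def Tr.Mem (key : ℕ) : Tr → Prop
  | .nil => False
  | .leaf q _ => key = q
  | .node _ l r => l.Mem key ∨ r.Mem key

theorem Tr.mem_spec (q : ℕ) : ∀ (t : Tr), Tr.mem q t = true → t.Mem q := by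
  intro t
  induction t with
  | nil => intro h; exact absurd h (by simp [Tr.mem])
  | leaf key mv =>
    intro h
    exact Nat.eq_of_beq_eq_true h
  | node key l r ihl ihr =>
    intro h
    change Bool.rec (motive := fun _ => Bool) (Tr.mem q r) (Tr.mem q l) (Nat.ble q key) = true at h
    rcases hb : Nat.ble q key with _ | _
    · rw [hb] at h; exact Or.inr (ihr h)
    · rw [hb] at h; exact Or.inl (ihl h)

/-- all positions in the tree are won for Alice -/
def GoodA (G : SimpleGraph (Fin n)) (k i : ℕ) (T : Tr) : Prop :=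
  ∀ key, T.Mem key → ∀ (f : Fin n → Option ℕ) (U : ℕ) (l : List ℕ), Rep G k f U l →
    pack (U :: l) = key → ncol f = i → AWin G k f

/-- all positions in the tree are won for Bob -/
def GoodB (G : SimpleGraph (Fin n)) (k i : ℕ) (T : Tr) : Prop :=
  ∀ key, T.Mem key → ∀ (f : Fin n → Option ℕ) (U : ℕ) (l : List ℕ), Rep G k f U l →
    pack (U :: l) = key → ncol f = i → ¬ AWin G k f

theorem GoodA.nil {i : ℕ} : GoodA G k i .nil := fun _ h => h.elim

theorem GoodB.nil {i : ℕ} : GoodB G k i .nil := fun _ h => h.elim

theorem GoodA.node {i key : ℕ} {l r : Tr} (hl : GoodA G k i l) (hr : GoodA G k i r) :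
    GoodA G k i (.node key l r) := fun q hq => hq.elim (hl q) (hr q)

theorem GoodB.node {i key : ℕ} {l r : Tr} (hl : GoodB G k i l) (hr : GoodB G k i r) :
    GoodB G k i (.node key l r) := fun q hq => hq.elim (hl q) (hr q)

theorem Tr.chk_spec {P : ℕ → ℕ → Bool} : ∀ (t : Tr), Tr.chk P t = true →
    ∀ key, t.Mem key → ∃ mv, P key mv = true := by
  intro t
  induction t with
  | nil => intro _ key h; exact h.elim
  | leaf q mv =>
    intro h key hk
    have : key = q := hk
    subst this
    exact ⟨mv, h⟩
  | node q l r ihl ihr =>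
    intro h key hk
    change Bool.rec (motive := fun _ => Bool) false (Tr.chk P r) (Tr.chk P l) = true at h
    rcases hl : Tr.chk P l with _ | _
    · rw [hl] at h; exact absurd h (by simp)
    · rw [hl] at h
      exact hk.elim (ihl hl key) (ihr h key)

theorem chkQA_spec {f : Fin n → Option ℕ} {U : ℕ} {l : List ℕ}
    [DecidableRel G.Adj] (h : Rep G k f U l)
    {vs : VL} (hvs : VLok G vs) {Tn : Tr} {i : ℕ} (hi : ncol f = i) (he : ¬ Even (ncol f))
    (hT : GoodA G k (i + 1) Tn) (hs : chkQA vs Tn U l = true) : AWin G k f := by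
  change Bool.rec (motive := fun _ => Bool)
    (Bool.rec (motive := fun _ => Bool)
      (allCh (fun U2 l2 => Bool.rec (motive := fun _ => Bool) (safe vs U2 l2) true
        (Tr.mem (pack (List.cons U2 l2)) Tn)) vs U l)
      false (Nat.beq (orL l) 0))
    true (safe vs U l) = true at hs
  rcases hsf : safe vs U l with _ | _
  · rw [hsf] at hs
    change Bool.rec (motive := fun _ => Bool)
      (allCh (fun U2 l2 => Bool.rec (motive := fun _ => Bool) (safe vs U2 l2) true
        (Tr.mem (pack (List.cons U2 l2)) Tn)) vs U l)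
      false (Nat.beq (orL l) 0) = true at hs
    rcases hor : Nat.beq (orL l) 0 with _ | _
    · rw [hor] at hs
      change allCh (fun U2 l2 => Bool.rec (motive := fun _ => Bool) (safe vs U2 l2) true
        (Tr.mem (pack (List.cons U2 l2)) Tn)) vs U l = true at hs
      have hex : ∃ v c, Legal G k f v c := by
        have hne : orL l ≠ 0 := by
          intro h0; rw [h0] at hor; simp at hor
        have : ∀ l : List ℕ, orL l ≠ 0 → ∃ x ∈ l, x ≠ 0 := by
          intro l
          induction l with
          | nil => intro h; exact absurd rfl h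
          | cons y t ih =>
            intro h
            by_cases hy : y = 0
            · have : orL (y :: t) = orL t := by
                show Nat.lor y (orL t) = orL t
                rw [hy]
                exact Nat.zero_or _
              rw [this] at h
              obtain ⟨x, hx, hx'⟩ := ih h
              exact ⟨x, List.mem_cons_of_mem _ hx, hx'⟩
            · exact ⟨y, List.mem_cons_self, hy⟩
        obtain ⟨x, hx, hx0⟩ := this l hne
        obtain ⟨hU, l', hk, hp, hcol⟩ := h
        obtain ⟨c, hcl, rfl⟩ := List.mem_iff_getElem.mp (hp.subset hx)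
        obtain ⟨j, hj⟩ := Nat.exists_testBit_of_ne_zero hx0
        obtain ⟨hjn, h1, h2⟩ := (hcol c hcl j).mp hj
        exact ⟨⟨j, hjn⟩, c, h1, by rw [← hk]; exact hcl, h2⟩
      refine awin_of_all he (fun _ => hex) ?_
      intro v c hl
      obtain ⟨v', hl', hiff, U2, l2, hrep, hP⟩ := h.allCh hvs hs hl
      rw [hiff]
      rcases hmem : Tr.mem (pack (List.cons U2 l2)) Tn with _ | _
      · rw [hmem] at hP
        exact (safe_spec hrep hvs hP).awin
      · refine hT _ (Tr.mem_spec _ _ hmem) _ U2 l2 hrep rfl ?_
        rw [ncol_update hl'.1, hi]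
    · rw [hor] at hs
      exact absurd hs (by simp)
  · exact (safe_spec h hvs hsf).awin

theorem layerA (hn : n ≤ 32) [DecidableRel G.Adj] {vs : VL} (hvs : VLok G vs) {Tn T : Tr}
    {i : ℕ} (hi : Even i) (hT : GoodA G k (i + 2) Tn)
    (h : Tr.chk (chkPA k vs Tn) T = true) : GoodA G k i T := by
  intro key hkey f U l hrep hpack hnc
  obtain ⟨mv, hmv⟩ := Tr.chk_spec T h key hkey
  obtain ⟨e1, e2⟩ := hrep.unpack hn hpack
  unfold chkPA at hmv
  rw [e1, e2] at hmv
  obtain ⟨v, c, hl, U2, l2, hrep2, hq⟩ := hrep.exCh hvs hmv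
  have hnc2 : ncol (Function.update f v (some c)) = i + 1 := by rw [ncol_update hl.1, hnc]
  refine awin_of_move (by rw [hnc]; exact hi) hl ?_
  refine chkQA_spec hrep2 hvs hnc2 ?_ hT hq
  rw [hnc2]
  exact Nat.not_even_iff_odd.mpr hi.add_one

theorem chkQB_spec {f : Fin n → Option ℕ} {U : ℕ} {l : List ℕ}
    (h : Rep G k f U l)
    {vs : VL} (hvs : VLok G vs) {Tn : Tr} {i : ℕ} (hi : ncol f = i) (he : Even (ncol f))
    (hT : GoodB G k (i + 1) Tn) (hs : chkQB vs Tn U l = true) : ¬ AWin G k f := by
  change Bool.rec (motive := fun _ => Bool)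
    (allCh (fun U2 l2 => Bool.rec (motive := fun _ => Bool)
        (Tr.mem (pack (List.cons U2 l2)) Tn) true (lost vs U2 l2)) vs U l)
    false (Nat.beq U 0) = true at hs
  rcases hU0 : Nat.beq U 0 with _ | _
  · rw [hU0] at hs
    change allCh (fun U2 l2 => Bool.rec (motive := fun _ => Bool)
        (Tr.mem (pack (List.cons U2 l2)) Tn) true (lost vs U2 l2)) vs U l = true at hs
    have hne : U ≠ 0 := by
      intro h0; rw [h0] at hU0; simp at hU0
    obtain ⟨j, hj⟩ := Nat.exists_testBit_of_ne_zero hne
    obtain ⟨hjn, h1⟩ := (h.1 j).mp hj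
    refine not_awin_of_all he ⟨_, h1⟩ ?_
    intro v c hl
    obtain ⟨v', hl', hiff, U2, l2, hrep, hP⟩ := h.allCh hvs hs hl
    rw [hiff]
    have hnc2 : ncol (Function.update f v' (some c)) = ncol f + 1 := ncol_update hl'.1
    have hne2 : ¬ Even (ncol (Function.update f v' (some c))) := by
      rw [hnc2]
      exact Nat.not_even_iff_odd.mpr he.add_one
    rcases hlo : lost vs U2 l2 with _ | _
    · rw [hlo] at hP
      refine hT _ (Tr.mem_spec _ _ hP) _ U2 l2 hrep rfl ?_
      rw [hnc2, hi]
    · exact lost_spec hrep hvs hne2 hlo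
  · rw [hU0] at hs
    exact absurd hs (by simp)

theorem layerB (hn : n ≤ 32) {vs : VL} (hvs : VLok G vs) {Tn T : Tr}
    {i : ℕ} (hi : Odd i) (hT : GoodB G k (i + 2) Tn)
    (h : Tr.chk (chkPB k vs Tn) T = true) : GoodB G k i T := by
  intro key hkey f U l hrep hpack hnc
  obtain ⟨mv, hmv⟩ := Tr.chk_spec T h key hkey
  obtain ⟨e1, e2⟩ := hrep.unpack hn hpack
  unfold chkPB at hmv
  rw [e1, e2] at hmv
  obtain ⟨v, c, hl, U2, l2, hrep2, hq⟩ := hrep.exCh hvs hmv
  have hnc2 : ncol (Function.update f v (some c)) = i + 1 := by rw [ncol_update hl.1, hnc]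
  refine not_awin_of_move (by rw [hnc]; exact Nat.not_even_iff_odd.mpr hi) hl ?_
  refine chkQB_spec hrep2 hvs hnc2 ?_ hT hq
  rw [hnc2]
  exact hi.add_one

/-! ### the empty colouring -/

theorem rep_none (G : SimpleGraph (Fin n)) (k : ℕ) :
    Rep G k (fun _ => none) (2 ^ n - 1) (List.replicate k (2 ^ n - 1)) := by
  refine ⟨?_, List.replicate k (2 ^ n - 1), by simp, List.Perm.refl _, ?_⟩
  · intro i
    rw [Nat.testBit_two_pow_sub_one]
    simp
  · intro c hc i
    simp only [List.getElem_replicate]
    rw [Nat.testBit_two_pow_sub_one]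
    simp

theorem ncol_none : ncol (fun _ => none : Fin n → Option ℕ) = 0 := by
  simp [ncol]

theorem startA {T : Tr} (hT : GoodA G k 0 T)
    (h : Tr.mem (pack ((2 ^ n - 1) :: List.replicate k (2 ^ n - 1))) T = true) :
    AWin G k (fun _ => none) :=
  hT _ (Tr.mem_spec _ _ h) _ _ _ (rep_none G k) rfl ncol_none

theorem startB {vs : VL} (hvs : VLok G vs) {T : Tr} (hT : GoodB G k 1 T)
    (h : chkQB vs T (2 ^ n - 1) (List.replicate k (2 ^ n - 1)) = true) :
    ¬ AWin G k (fun _ => none) :=
  chkQB_spec (rep_none G k) hvs ncol_none (by rw [ncol_none]; exact Even.zero) hT h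

end Pool.Agent.Lib_helper77.CGT
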