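import Mathlib
import Pool.Agent.Lib_helper77.CGT.Sound

set_option autoImplicit false

/-!
# Certificates for a position with one coloured vertex, Bob to move
-/

namespace Pool.Agent.Lib_helper77.CGT

open Finset Pool.Agent.Lib_helper74.CG

variable {n : ℕ} {G : SimpleGraph (Fin n)} {k : ℕ}

theorem update_none_eq (v : Fin n) :
    Function.update (fun _ => none : Fin n → Option ℕ) v (some 0) =
      fun w => if w = v then some 0 else none := by
  funext w
  by_cases hw : w = v
  · subst hw; simp
  · simp [hw]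

theorem rep_root {v : Fin n} {e : ℕ × ℕ × ℕ × ℕ × ℕ} (he : EntryOK G v e) {m : ℕ} {l2 : List ℕ}
    (hl : l2.Perm (child e.2.1 e.2.2.1 (List.replicate (m + 1) (2 ^ n - 1)) (2 ^ n - 1))) :
    Rep G (m + 1) (fun w => if w = v then some 0 else none) (Nat.land (2 ^ n - 1) e.2.1) l2 := by
  rw [← update_none_eq]
  have h0 := rep_none G (m + 1)
  obtain ⟨l', hk, hp, hcol⟩ := h0.2
  have hc : 0 < l'.length := by rw [hk]; omega
  have hval : l'[0] = 2 ^ n - 1 := by
    have : l'[0] ∈ List.replicate (m + 1) (2 ^ n - 1) := hp.symm.subset (List.getElem_mem hc)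
    exact (List.mem_replicate.mp this).2
  refine h0.child he hc hk hp hcol rfl ?_
  rw [hval]
  exact hl

theorem ncol_single (v : Fin n) :
    ncol (fun w => if w = v then some 0 else none : Fin n → Option ℕ) = 1 := by
  rw [← update_none_eq, ncol_update rfl, ncol_none]

/-- Alice wins the position in which only `v` is coloured (Bob to move) -/
theorem rootA [DecidableRel G.Adj] {v : Fin n} {e : ℕ × ℕ × ℕ × ℕ × ℕ} {m : ℕ} {vs : VL}
    (hvs : VLok G vs) (he : EntryOK G v e) {Tn : Tr} (hT : GoodA G (m + 1) 2 Tn)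
    (h : chkQA vs Tn (Nat.land (2 ^ n - 1) e.2.1)
      (child e.2.1 e.2.2.1 (List.replicate (m + 1) (2 ^ n - 1)) (2 ^ n - 1)) = true) :
    AWin G (m + 1) (fun w => if w = v then some 0 else none) := by
  refine chkQA_spec (rep_root he (List.Perm.refl _)) hvs (ncol_single v) ?_ hT h
  rw [ncol_single]
  decide

/-- Bob wins the position in which only `v` is coloured (Bob to move) -/
theorem rootB {v : Fin n} {e : ℕ × ℕ × ℕ × ℕ × ℕ} {m : ℕ}
    (he : EntryOK G v e) {T : Tr} (hT : GoodB G (m + 1) 1 T)
    (h : Tr.mem (pack (Nat.land (2 ^ n - 1) e.2.1 ::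
      srt e.2.1 (List.replicate m (2 ^ n - 1)) [Nat.land (2 ^ n - 1) e.2.2.1])) T = true) :
    ¬ AWin G (m + 1) (fun w => if w = v then some 0 else none) := by
  refine hT _ (Tr.mem_spec _ _ h) _ _ _ (rep_root he ?_) rfl (ncol_single v)
  have h1 : (List.replicate (m + 1) (2 ^ n - 1)).Perm
      ([] ++ (2 ^ n - 1) :: List.replicate m (2 ^ n - 1)) := by
    rw [List.replicate_succ]
    exact List.Perm.refl _
  exact srt_child (pre := []) h1

end Pool.Agent.Lib_helper77.CGT
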